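import Mathlib

set_option autoImplicit false

namespace Pool.Agent.W809.CI

/-- `E_n ℤ_p`, the `(n+1)`-fold join of the discrete space `ℤ/p`: its points are the families
`w i g ≥ 0` (`0 ≤ i ≤ n`, `g ∈ ℤ/p`) of total sum `1` such that for each `i` there is at most one
`g` with `w i g ≠ 0` (the point `∑ tᵢ gᵢ` of the join has `w i gᵢ = tᵢ`). -/
def EJoin (p n : ℕ) [NeZero p] : Type :=
  {w : Fin (n + 1) → ZMod p → ℝ // (∀ i g, 0 ≤ w i g) ∧ (∑ i, ∑ g, w i g = 1) ∧
    ∀ i g g', w i g ≠ 0 → w i g' ≠ 0 → g = g'}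

instance (p n : ℕ) [NeZero p] : TopologicalSpace (EJoin p n) :=
  inferInstanceAs (TopologicalSpace {w : Fin (n + 1) → ZMod p → ℝ // (∀ i g, 0 ≤ w i g) ∧
    (∑ i, ∑ g, w i g = 1) ∧ ∀ i g g', w i g ≠ 0 → w i g' ≠ 0 → g = g'})

/-- The generator of `ℤ/p` acts on `E_n ℤ_p` by `gᵢ ↦ gᵢ + 1`. -/
def EJoin.shift {p n : ℕ} [NeZero p] (w : EJoin p n) : EJoin p n :=
  ⟨fun i g => w.1 i (g - 1), fun i g => w.2.1 i _, by
    refine Eq.trans ?_ w.2.2.1
    refine Finset.sum_congr rfl fun i _ => ?_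
    exact Fintype.sum_equiv (Equiv.subRight 1) _ _ (fun g => rfl),
    fun i g g' h h' => by
      have := w.2.2.2 i _ _ h h'
      exact sub_left_injective this⟩

/-- The `p`-periodic points of the system `(X, T)`. -/
abbrev Per {X : Type} [TopologicalSpace X] (T : X ≃ₜ X) (p : ℕ) : Type :=
  {x : X // (T ^ p) x = x}

/-- The action of `T` on its `p`-periodic points. -/
def Per.next {X : Type} [TopologicalSpace X] {T : X ≃ₜ X} {p : ℕ} (x : Per T p) : Per T p :=
  ⟨T x.1, by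
    have h1 : (T ^ p) (T x.1) = T ((T ^ p) x.1) := by
      rw [← Homeomorph.mul_apply, ← Homeomorph.mul_apply, ← pow_succ, ← pow_succ']
    rw [h1, x.2]⟩

/-- There is a continuous equivariant map from `E_n ℤ_p` to the `p`-periodic points of `T`. -/
def HasComap {X : Type} [TopologicalSpace X] (T : X ≃ₜ X) (p n : ℕ) [NeZero p] : Prop :=
  ∃ f : EJoin p n → Per T p, Continuous f ∧ ∀ w, f w.shift = (f w).next

end Pool.Agent.W809.CI
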