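import Pool.Agent.W809.CI.Stm2

set_option autoImplicit false

open Set Filter Topology

namespace Pool.Agent.W809.CI

theorem hcont (hF : S_FOP) (hE : S_EXT) (hH : S_HOP) : S_HCONT := by
  intro Y _ p W hp hW hWp lam x hlam hx hTw
  exact hE Y p hp (fun y => fop p W (lam y) (x y)) (hF Y p W hp hW hWp lam x hlam hx)
    (fun y => (hH p W hp hW hWp).2.2.2 (lam y) (x y) (hTw y))

lemma log_bound {p N : ℕ} (hp : 2 ≤ p) (hN : (N : ℝ) ≤ p / (1536 * Real.log p)) :
    64 * N * (2 * Real.log (1 + 3 * p * (N + 1) + 2 * p) + 9) ≤ p := by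
  have hp' : (2 : ℝ) ≤ p := by exact_mod_cast hp
  have hlog2 : 0.69 < Real.log 2 := by
    have := Real.log_two_gt_d9
    linarith
  have hlogp : Real.log 2 ≤ Real.log p := Real.log_le_log (by norm_num) hp'
  have hlp : 0.69 < Real.log p := by linarith
  have hNp : (N : ℝ) ≤ p := by
    refine hN.trans ?_
    rw [div_le_iff₀ (by positivity)]
    nlinarith
  have hN0 : (0 : ℝ) ≤ N := Nat.cast_nonneg N
  have h1 : 1 + 3 * (p:ℝ) * (N + 1) + 2 * p ≤ 9 * p ^ 2 := by
    have h2 : (p:ℝ) * N ≤ p * p := mul_le_mul_of_nonneg_left hNp (by linarith)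
    nlinarith
  have h3 : Real.log (1 + 3 * p * (N + 1) + 2 * p) ≤ 2 * Real.log p + 2.2 := by
    have h4 : Real.log (1 + 3 * p * (N + 1) + 2 * p) ≤ Real.log (9 * p ^ 2) :=
      Real.log_le_log (by positivity) h1
    have h5 : Real.log (9 * (p:ℝ) ^ 2) = Real.log 9 + 2 * Real.log p := by
      rw [Real.log_mul (by norm_num) (by positivity), Real.log_pow]
      norm_num
    have h6 : Real.log 9 ≤ 2.2 := by
      have h7 : Real.log 9 = 2 * Real.log 3 := by
        rw [show (9:ℝ) = 3 ^ 2 by norm_num, Real.log_pow]; norm_num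
      have h8 : Real.log 3 ≤ 1.1 := by
        rw [Real.log_le_iff_le_exp (by norm_num)]
        have h9 : (2.7182818283 : ℝ) < Real.exp 1 := Real.exp_one_gt_d9
        have h10 : 1 + 0.1 ≤ Real.exp 0.1 := by
          have := Real.add_one_le_exp (0.1 : ℝ)
          linarith
        have h11 : (1:ℝ) + 0.1 + 0.1 ^ 2 / 2 ≤ Real.exp 0.1 := by
          have := Real.quadratic_le_exp_of_nonneg (x := 0.1) (by norm_num)
          linarith
        have h12 : Real.exp 1.1 = Real.exp 1 * Real.exp 0.1 := by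
          rw [← Real.exp_add]; norm_num
        rw [h12]
        nlinarith [Real.exp_pos 0.1]
      linarith
    linarith
  have h6 : 2 * Real.log (1 + 3 * p * (N + 1) + 2 * p) + 9 ≤ 24 * Real.log p := by linarith
  have h7 : (N : ℝ) * (1536 * Real.log p) ≤ p := by
    rwa [le_div_iff₀ (by positivity)] at hN
  calc 64 * N * (2 * Real.log (1 + 3 * p * (N + 1) + 2 * p) + 9)
      ≤ 64 * N * (24 * Real.log p) := mul_le_mul_of_nonneg_left h6 (by positivity)
    _ = N * (1536 * Real.log p) := by ring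
    _ ≤ p := h7

theorem main (hSTG2 : S_STG2) (hJOIN : S_JOIN) (hSYS : S_SYS) :
    ∃ (X : Type) (_ : TopologicalSpace X) (T : X ≃ₜ X),
      CompactSpace X ∧ TopologicalSpace.MetrizableSpace X ∧ (∀ x, T x ≠ x) ∧
      ∀ (p : ℕ) [Fact p.Prime] (n : ℕ), ((n + 1 : ℕ) : ℝ) ≤ p / (1536 * Real.log p) → HasComap T p n := by
  obtain ⟨X, hX, T, h1, h2, h3, h4⟩ := hSYS
  refine ⟨X, hX, T, h1, h2, h3, ?_⟩
  intro p hp n hn
  have hp2 : 2 ≤ p := hp.out.two_le
  have hp0 : (0 : ℝ) < p := by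
    have : (2:ℝ) ≤ p := by exact_mod_cast hp2
    linarith
  have hb := log_bound hp2 hn
  set N : ℕ := n + 1 with hN
  have hN0 : (0 : ℝ) < N := by
    rw [hN]; positivity
  have hN1 : (1 : ℝ) ≤ N := by
    rw [hN]; push_cast; linarith [(Nat.cast_nonneg n : (0:ℝ) ≤ n)]
  set W : ℝ := p / (4 * N) with hW
  have hWpos : 0 < W := by positivity
  have hWN : 4 * W * N = p := by
    rw [hW]; field_simp
  have hWp : 4 * W ≤ p := by
    rw [← hWN]
    nlinarith
  obtain ⟨Φ, hΦ1, hΦ2, hΦ3, hΦ4⟩ := hJOIN p n W hWpos hWp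
  refine h4 p n ⟨Φ, hΦ1, hΦ2, hΦ3, fun w t => ?_⟩
  obtain ⟨lam, a, hw⟩ := hΦ4 w
  have h5 := hSTG2 p N W (1 / 4) lam a (n + 1) (by omega) hWpos le_rfl (by omega) hWN.le (by
    rw [div_le_iff₀ hWpos]
    have h6 : 4 * (2 * Real.log (1 + 3 * p * (N + 1) + 2 * p) + 9) * (16 * N) ≤ p := by linarith
    have h7 : 1 / 4 * W = p / (16 * N) := by
      rw [hW]; field_simp; ring
    rw [h7, le_div_iff₀ (by positivity)]
    exact h6) (t + 1) t
  rw [hw]
  refine h5.trans ?_
  rw [show t + 1 - t = (1:ℝ) by ring, abs_one]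
  norm_num

end Pool.Agent.W809.CI
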