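import Pool.Agent.W809.CI.Stm

set_option autoImplicit false

open Set Filter Topology

namespace Pool.Agent.W809.CI

lemma continuous_ca : Continuous ca := by unfold ca; fun_prop
lemma continuous_cb : Continuous cb := by unfold cb; fun_prop
lemma continuous_cc : Continuous cc := by unfold cc; fun_prop
lemma continuous_Dp : Continuous Dp := by
  unfold Dp
  refine Continuous.log (by fun_prop) fun x => ?_
  have := abs_nonneg x
  linarith

lemma continuous_beta (m : ℤ) : Continuous (beta m) := by
  refine Continuous.subtype_mk ?_ _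
  have h1 : Continuous (fun x : Pt => x.1.1) := continuous_fst.comp continuous_subtype_val
  have h2 : Continuous (fun x : Pt => x.1.2.1) := (continuous_fst.comp continuous_snd).comp continuous_subtype_val
  have h3 : Continuous (fun x : Pt => x.1.2.2) := (continuous_snd.comp continuous_snd).comp continuous_subtype_val
  refine h1.prodMk (Continuous.prodMk ?_ (h3.add continuous_const))
  refine continuous_pi fun k => ?_
  exact (continuous_apply (k - m)).comp h2

lemma continuous_rho : Continuous (fun q : ℝ × Pt => rho q.1 q.2) := by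
  refine Continuous.subtype_mk ?_ _
  have h0 : Continuous (fun q : ℝ × Pt => q.1) := continuous_fst
  have h1 : Continuous (fun q : ℝ × Pt => q.2.1.1) := (continuous_fst.comp continuous_subtype_val).comp continuous_snd
  have h2 : Continuous (fun q : ℝ × Pt => q.2.1.2.1) :=
    ((continuous_fst.comp continuous_snd).comp continuous_subtype_val).comp continuous_snd
  have h3 : Continuous (fun q : ℝ × Pt => q.2.1.2.2) :=
    ((continuous_snd.comp continuous_snd).comp continuous_subtype_val).comp continuous_snd
  have ha := continuous_ca.comp h0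
  have hb := continuous_cb.comp h0
  have hc := continuous_cc.comp h0
  have hD := continuous_Dp.comp h3
  refine ((ha.mul h1).add (hb.mul hD)).prodMk (Continuous.prodMk ?_ (hc.mul h3))
  refine continuous_pi fun k => ?_
  refine Continuous.add (ha.mul ((continuous_apply k).comp h2)) ?_
  by_cases hk : k = 0
  · subst hk
    simp only [Pi.single_eq_same]
    exact hb.mul hD
  · simp only [Pi.single_eq_of_ne hk]
    exact continuous_const

theorem pt : S_PT := by
  refine ⟨continuous_beta, continuous_rho, ?_, ?_, ?_, ?_, ?_, ?_, ?_, ?_, ?_⟩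
  · intro m m' x
    apply Subtype.ext
    show (x.1.1, (fun k => x.1.2.1 (k - m - m')), x.1.2.2 + m' + m) = (x.1.1, (fun k => x.1.2.1 (k - (m + m'))), x.1.2.2 + ((m + m' : ℤ) : ℝ))
    have e1 : (fun k => x.1.2.1 (k - m - m')) = fun k => x.1.2.1 (k - (m + m')) := by
      funext k; rw [sub_sub]
    rw [e1]
    congr 2
    push_cast
    ring
  · intro x
    apply Subtype.ext
    show (x.1.1, (fun k => x.1.2.1 (k - 0)), x.1.2.2 + ((0 : ℤ) : ℝ)) = x.1
    simp
  · intro θ x hθ
    have ha : ca θ = 1 := by
      unfold ca
      rw [min_eq_left (by linarith), max_eq_right (by norm_num)]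
    have hb : cb θ = 0 := by
      unfold cb
      exact max_eq_left ((min_le_left _ _).trans (by linarith))
    have hc : cc θ = 1 := by
      unfold cc
      rw [min_eq_left (by linarith), max_eq_right (by norm_num)]
    apply Subtype.ext
    show (ca θ * x.1.1 + cb θ * Dp x.1.2.2,
      (fun k => ca θ * x.1.2.1 k + (Pi.single (0 : ℤ) (cb θ * Dp x.1.2.2) : ℤ → ℝ) k), cc θ * x.1.2.2) = x.1
    simp [ha, hb, hc]
  · intro θ x hθ
    have ha : ca θ = 0 := by
      unfold ca
      exact max_eq_left ((min_le_right _ _).trans (by linarith))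
    have hb : cb θ = 0 := by
      unfold cb
      exact max_eq_left (((min_le_right _ _).trans (min_le_right _ _)).trans (by linarith))
    have hc : cc θ = 0 := by
      unfold cc
      exact max_eq_left ((min_le_right _ _).trans (by linarith))
    apply Subtype.ext
    show (ca θ * x.1.1 + cb θ * Dp x.1.2.2,
      (fun k => ca θ * x.1.2.1 k + (Pi.single (0 : ℤ) (cb θ * Dp x.1.2.2) : ℤ → ℝ) k), cc θ * x.1.2.2)
      = ((0 : ℝ), (fun _ : ℤ => (0 : ℝ)), (0 : ℝ))
    simp [ha, hb, hc]
  · intro θ x
    have ha1 : ca θ ≤ 1 := max_le (by norm_num) (min_le_left _ _)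
    have hb1 : cb θ ≤ 1 := max_le (by norm_num) ((min_le_right _ _).trans (min_le_left _ _))
    have hc0 : 0 ≤ cc θ := le_max_left _ _
    have hc1 : cc θ ≤ 1 := max_le (by norm_num) (min_le_left _ _)
    have hs := x.2.1
    have hD := Dp_nonneg x.1.2.2
    constructor
    · show ca θ * x.1.1 + cb θ * Dp x.1.2.2 ≤ max x.1.1 (Dp x.1.2.2)
      rcases ca_or_cb θ with h | h
      · rw [h, zero_mul, zero_add]
        refine le_trans ?_ (le_max_right _ _)
        nlinarith [cb_nonneg θ]
      · rw [h, zero_mul, add_zero]
        refine le_trans ?_ (le_max_left _ _)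
        nlinarith [ca_nonneg θ]
    · show |cc θ * x.1.2.2| ≤ |x.1.2.2|
      rw [abs_mul, abs_of_nonneg hc0]
      nlinarith [abs_nonneg x.1.2.2]
  · intro m x
    exact ⟨rfl, rfl⟩
  · intro x
    exact x.2.1
  · exact continuous_fst.comp continuous_subtype_val
  · exact (continuous_snd.comp continuous_snd).comp continuous_subtype_val

end Pool.Agent.W809.CI
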