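import Mathlib

set_option autoImplicit false

open Set Filter Topology

namespace Pool.Agent.W809.CI

/-- the open book: pages `j : ℤ` are half planes `s ≥ 0` with coordinate `r`, glued along `s = 0`;
a point is `(s, τ, r)` with `τ = s e_j` -/
def Pt : Type := {x : ℝ × (ℤ → ℝ) × ℝ // 0 ≤ x.1 ∧ ∃ j : ℤ, x.2.1 = Pi.single j x.1}

instance : TopologicalSpace Pt :=
  inferInstanceAs (TopologicalSpace {x : ℝ × (ℤ → ℝ) × ℝ // 0 ≤ x.1 ∧ ∃ j : ℤ, x.2.1 = Pi.single j x.1})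

/-- depth -/
def Pt.s (x : Pt) : ℝ := x.1.1
/-- page vector -/
def Pt.v (x : Pt) : ℤ → ℝ := x.1.2.1
/-- coordinate along the binding -/
def Pt.r (x : Pt) : ℝ := x.1.2.2

/-- the translation: page `j` goes to page `j + m`, coordinate `r` to `r + m` -/
def beta (m : ℤ) (x : Pt) : Pt :=
  ⟨(x.1.1, fun k => x.1.2.1 (k - m), x.1.2.2 + m), x.2.1, by
    obtain ⟨j, hj⟩ := x.2.2
    refine ⟨j + m, ?_⟩
    funext k
    simp only [hj, Pi.single_apply]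
    congr 1
    exact propext ⟨fun h => by omega, fun h => by omega⟩⟩

/-- the base point -/
def b0 : Pt := ⟨(0, fun _ => 0, 0), le_rfl, 0, by funext k; simp⟩

noncomputable def ca (θ : ℝ) : ℝ := max 0 (min 1 (1 - 4 * θ))
noncomputable def cb (θ : ℝ) : ℝ := max 0 (min (4 * θ - 1) (min 1 (4 - 4 * θ)))
noncomputable def cc (θ : ℝ) : ℝ := max 0 (min 1 (3 - 4 * θ))
noncomputable def Dp (r : ℝ) : ℝ := Real.log (1 + |r|)

lemma ca_nonneg (θ : ℝ) : 0 ≤ ca θ := le_max_left _ _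
lemma cb_nonneg (θ : ℝ) : 0 ≤ cb θ := le_max_left _ _
lemma Dp_nonneg (r : ℝ) : 0 ≤ Dp r := Real.log_nonneg (by linarith [abs_nonneg r])

lemma ca_or_cb (θ : ℝ) : ca θ = 0 ∨ cb θ = 0 := by
  rcases le_total (1 / 4) θ with h | h
  · left
    unfold ca
    refine max_eq_left ((min_le_right _ _).trans ?_)
    linarith
  · right
    unfold cb
    refine max_eq_left ((min_le_left _ _).trans ?_)
    linarith

/-- the contraction of the open book: up to the binding, down page `0` to depth `log (1 + |r|)`,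
along this page to coordinate `0`, up to the base point -/
noncomputable def rho (θ : ℝ) (x : Pt) : Pt :=
  ⟨(ca θ * x.1.1 + cb θ * Dp x.1.2.2,
    fun k => ca θ * x.1.2.1 k + (Pi.single (0 : ℤ) (cb θ * Dp x.1.2.2) : ℤ → ℝ) k, cc θ * x.1.2.2),
    add_nonneg (mul_nonneg (ca_nonneg θ) x.2.1) (mul_nonneg (cb_nonneg θ) (Dp_nonneg _)), by
    obtain ⟨j, hj⟩ := x.2.2
    rcases ca_or_cb θ with h | h
    · refine ⟨0, ?_⟩
      funext k
      simp [h]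
    · refine ⟨j, ?_⟩
      funext k
      simp [h, hj, Pi.single_apply]⟩

/-- the unit vector of phase `ρ / e^l`, in the slot given by the parity of `l` -/
noncomputable def Ev (l : ℕ) (ρ : ℝ) : ℂ × ℂ :=
  if Even l then (Complex.exp ((Real.pi * ρ * Real.exp (-(l:ℝ)) : ℝ) * Complex.I), 0)
  else (0, Complex.exp ((Real.pi * ρ * Real.exp (-(l:ℝ)) : ℝ) * Complex.I))

/-- the colour at depth `s`, coordinate `ρ` relative to the page -/
noncomputable def Bk (s ρ : ℝ) : ℂ × ℂ :=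
  (1 - (s - ⌊s⌋₊)) • Ev ⌊s⌋₊ ρ + (s - ⌊s⌋₊) • Ev (⌊s⌋₊ + 1) ρ

/-- the page of a point -/
noncomputable def Pt.j (x : Pt) : ℤ := x.2.2.choose

/-- the colour of a point of the open book -/
noncomputable def Cc (x : Pt) : ℂ × ℂ := ((-1 : ℝ) ^ x.j) • Bk x.s (x.r - x.j)

/-- bounds for the colours -/
def S_BK : Prop :=
  (∀ s s' ρ : ℝ, 0 ≤ s → 0 ≤ s' → ‖Bk s ρ - Bk s' ρ‖ ≤ |s - s'|) ∧
  (∀ s ρ ρ' : ℝ, 0 ≤ s → ‖Bk s ρ - Bk s ρ'‖ ≤ Real.pi * Real.exp (1 - s) * |ρ - ρ'|) ∧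
  (∀ s ρ : ℝ, 0 ≤ s → 1 / 2 ≤ ‖Bk s ρ‖ ∧ ‖Bk s ρ‖ ≤ 1)

/-- properties of the colour function and of the contraction -/
def S_CC : Prop :=
  Continuous Cc ∧ (∀ (m : ℤ) (x : Pt), Cc (beta m x) = ((-1 : ℝ) ^ m) • Cc x) ∧
  (∀ x : Pt, 1 / 2 ≤ ‖Cc x‖ ∧ ‖Cc x‖ ≤ 1) ∧
  (∀ (x : Pt) (θ θ' : ℝ), ‖Cc (rho θ x) - Cc (rho θ' x)‖ ≤ 4 * (x.s + Dp x.r + 9) * |θ - θ'|)

/-- properties of the translations and of the contraction -/
def S_PT : Prop :=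
  (∀ m : ℤ, Continuous (beta m)) ∧ Continuous (fun q : ℝ × Pt => rho q.1 q.2) ∧
  (∀ (m m' : ℤ) (x : Pt), beta m (beta m' x) = beta (m + m') x) ∧ (∀ x : Pt, beta 0 x = x) ∧
  (∀ (θ : ℝ) (x : Pt), θ ≤ 0 → rho θ x = x) ∧ (∀ (θ : ℝ) (x : Pt), 1 ≤ θ → rho θ x = b0) ∧
  (∀ (θ : ℝ) (x : Pt), (rho θ x).s ≤ max x.s (Dp x.r) ∧ |(rho θ x).r| ≤ |x.r|) ∧
  (∀ (m : ℤ) (x : Pt), (beta m x).s = x.s ∧ (beta m x).r = x.r + m) ∧ (∀ x : Pt, 0 ≤ x.s) ∧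
  Continuous Pt.s ∧ Continuous Pt.r

/-- twisted paths -/
def Tw (p : ℕ) (x : ℝ → Pt) : Prop := ∀ t : ℝ, x (t + p) = beta p (x t)

noncomputable def muf (lam : ℝ) : ℝ := max 0 (min 1 lam)
noncomputable def Tf (p : ℕ) (lam : ℝ) : ℝ := p * max 0 (min 1 (lam - 1))
noncomputable def nuf (lam : ℝ) : ℝ := max 0 (min 1 (lam - 2))

/-- the homotopy of twisted paths, on a fundamental domain `0 ≤ t ≤ p` -/
noncomputable def fop (p : ℕ) (W lam : ℝ) (x : ℝ → Pt) (t : ℝ) : Pt :=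
  if t ≤ muf lam * W then rho (max (nuf lam) (t / W)) (x 0)
  else if t ≤ 2 * muf lam * W then
    rho (2 * muf lam - t / W) (beta p (rho (nuf lam) (beta (-p) (x (Tf p lam)))))
  else beta p (rho (nuf lam) (beta (-p)
    (x (Tf p lam + (t - 2 * muf lam * W) * (p - Tf p lam) / (p - 2 * muf lam * W)))))

/-- the homotopy of twisted paths, `0 ≤ lam ≤ 3` -/
noncomputable def Hop (p : ℕ) (W lam : ℝ) (x : ℝ → Pt) (t : ℝ) : Pt :=
  beta (p * ⌊t / p⌋) (fop p W lam x (t - p * ⌊t / p⌋))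

/-- joint continuity on the fundamental domain -/
def S_FOP : Prop := ∀ (Y : Type) [TopologicalSpace Y] (p : ℕ) (W : ℝ), 0 < p → 0 < W → 4 * W ≤ p →
  ∀ (lam : Y → ℝ) (x : Y → ℝ → Pt), Continuous lam → Continuous (fun q : Y × ℝ => x q.1 q.2) →
    Continuous (fun q : Y × ℝ => fop p W (lam q.1) (x q.1) q.2)

/-- periodic extension -/
def S_EXT : Prop := ∀ (Y : Type) [TopologicalSpace Y] (p : ℕ), 0 < p → ∀ f : Y → ℝ → Pt,
  Continuous (fun q : Y × ℝ => f q.1 q.2) → (∀ y, f y p = beta p (f y 0)) →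
    Continuous (fun q : Y × ℝ => beta (p * ⌊q.2 / p⌋) (f q.1 (q.2 - p * ⌊q.2 / p⌋)))

/-- algebraic properties of the homotopy -/
def S_HOP : Prop := ∀ (p : ℕ) (W : ℝ), 0 < p → 0 < W → 4 * W ≤ p →
  (∀ (lam : ℝ) (x : ℝ → Pt), Tw p (Hop p W lam x)) ∧
  (∀ x : ℝ → Pt, Tw p x → Hop p W 0 x = x) ∧
  (∀ x x' : ℝ → Pt, Hop p W 3 x = Hop p W 3 x') ∧
  (∀ (lam : ℝ) (x : ℝ → Pt), Tw p x → fop p W lam x p = beta p (fop p W lam x 0))

/-- joint continuity of the homotopy -/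
def S_HCONT : Prop := ∀ (Y : Type) [TopologicalSpace Y] (p : ℕ) (W : ℝ), 0 < p → 0 < W → 4 * W ≤ p →
  ∀ (lam : Y → ℝ) (x : Y → ℝ → Pt), Continuous lam → Continuous (fun q : Y × ℝ => x q.1 q.2) →
    (∀ y, Tw p (x y)) → Continuous (fun q : Y × ℝ => Hop p W (lam q.1) (x q.1) q.2)

/-- the invariants of a twisted path -/
def Inv (p : ℕ) (R L : ℝ) (x : ℝ → Pt) : Prop :=
  Tw p x ∧ (∀ t, (x t).s ≤ Real.log (1 + R + 2 * p)) ∧ (∀ t, |(x t).r - t| ≤ R) ∧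
    ∀ t t', ‖Cc (x t) - Cc (x t')‖ ≤ L * |t - t'|

/-- the homotopy and the invariants -/
def S_HINV : Prop := ∀ (p : ℕ) (W R L lam : ℝ) (x : ℝ → Pt), 0 < p → 0 < W → 4 * W ≤ p → 0 ≤ R →
  0 ≤ L → Inv p R L x →
    Inv p (R + 3 * p) (max (4 * (2 * Real.log (1 + R + 2 * p) + 9) / W) (L * p / (p - 2 * W)))
      (Hop p W lam x)

/-- the invariants of the final path -/
def S_HSTAR : Prop := ∀ (p : ℕ) (W : ℝ) (x : ℝ → Pt), 0 < p → 0 < W → 4 * W ≤ p →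
  Inv p (3 * p) (4 * (2 * Real.log (1 + 2 * p) + 9) / W) (Hop p W 3 x)

/-- the action of the shift on twisted paths -/
def sh (a : ℤ) (x : ℝ → Pt) : ℝ → Pt := fun t => beta (-a) (x (t + a))

noncomputable def Hg (p : ℕ) (W lam : ℝ) (a : ℤ) (x : ℝ → Pt) : ℝ → Pt := sh a (Hop p W lam (sh (-a) x))

/-- the composition of the first `k` homotopies -/
noncomputable def stage (p : ℕ) (W : ℝ) (lam : ℕ → ℝ) (a : ℕ → ℤ) : ℕ → ℝ → Pt
  | 0 => Hop p W 3 (fun _ => b0)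
  | k + 1 => Hg p W (lam k) (a k) (stage p W lam a k)

/-- the stages: twisted, jointly continuous, independent of the representatives, equivariant -/
def S_STG1 : Prop := ∀ (p : ℕ) (W : ℝ), 0 < p → 0 < W → 4 * W ≤ p →
  (∀ (lam : ℕ → ℝ) (a : ℕ → ℤ) (k : ℕ), Tw p (stage p W lam a k)) ∧
  (∀ (Y : Type) [TopologicalSpace Y] (lam : Y → ℕ → ℝ) (a : ℕ → ℤ) (k : ℕ),
    (∀ i, Continuous (fun y => lam y i)) →
      Continuous (fun q : Y × ℝ => stage p W (lam q.1) a k q.2)) ∧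
  (∀ (lam : ℕ → ℝ) (a a' : ℕ → ℤ) (k : ℕ), (∀ i < k, lam i ≠ 0 → (p : ℤ) ∣ a i - a' i) →
    stage p W lam a k = stage p W lam a' k) ∧
  (∀ (lam : ℕ → ℝ) (a : ℕ → ℤ) (k : ℕ), (∃ i < k, lam i = 3) →
    stage p W lam (fun i => a i + 1) k = sh 1 (stage p W lam a k))

/-- the stages: bounds -/
def S_STG2 : Prop := ∀ (p N : ℕ) (W M : ℝ) (lam : ℕ → ℝ) (a : ℕ → ℤ) (k : ℕ), 0 < p → 0 < W →
  k ≤ N → 0 < N → 4 * W * N ≤ p →
  4 * (2 * Real.log (1 + 3 * p * (N + 1) + 2 * p) + 9) / W ≤ M →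
    ∀ t t', ‖Cc (stage p W lam a k t) - Cc (stage p W lam a k t')‖ ≤ 2 * M * |t - t'|

end Pool.Agent.W809.CI
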