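import Pool.Agent.W809.CI.Defs
import Pool.Agent.W809.CI.Stm

set_option autoImplicit false

open Set Filter Topology

namespace Pool.Agent.W809.CI

/-- equivariant families of twisted paths parametrised by the join -/
def S_JOIN : Prop := ∀ (p n : ℕ) [NeZero p] (W : ℝ), 0 < W → 4 * W ≤ p →
  ∃ Φ : EJoin p n → ℝ → Pt, (∀ w, Tw p (Φ w)) ∧ (∀ t : ℝ, Continuous (fun w => Φ w t)) ∧
    (∀ w : EJoin p n, Φ w.shift = sh 1 (Φ w)) ∧
    ∀ w, ∃ (lam : ℕ → ℝ) (a : ℕ → ℤ), Φ w = stage p W lam a (n + 1)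

/-- the universal system: colourings of the integers -/
def S_SYS : Prop := ∃ (X : Type) (_ : TopologicalSpace X) (T : X ≃ₜ X),
  CompactSpace X ∧ TopologicalSpace.MetrizableSpace X ∧ (∀ x, T x ≠ x) ∧
  ∀ (p n : ℕ) [NeZero p], (∃ Φ : EJoin p n → ℝ → Pt, (∀ w, Tw p (Φ w)) ∧
    (∀ t : ℝ, Continuous (fun w => Φ w t)) ∧ (∀ w : EJoin p n, Φ w.shift = sh 1 (Φ w)) ∧
    ∀ w t, ‖Cc (Φ w (t + 1)) - Cc (Φ w t)‖ ≤ 1 / 2) → HasComap T p n

end Pool.Agent.W809.CI
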